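import Pool.Agent.H26.HA.Tent
import Pool.Agent.H26.WS.ZK

/-!
The area of the convex hull of a path in terms of its edges, and the isoperimetric inequality.
-/

set_option autoImplicit false

open MeasureTheory Set
open scoped ENNReal Pointwise

namespace Pool.Agent.H26.HA

open Pool.Agent.T6.H44.AR (det Refl Swp sup)
open Pool.Agent.H26.AR (det_add det_smul det_cont det_self det_comm_abs)

/-- the vertices of the path with the edges `L` -/
def ps : List (ℝ × ℝ) → Set (ℝ × ℝ)
  | [] => {0}
  | e :: L => insert 0 ((fun x => e + x) '' ps L)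

theorem zero_mem_ps : ∀ L : List (ℝ × ℝ), (0 : ℝ × ℝ) ∈ ps L
  | [] => rfl
  | _ :: _ => mem_insert _ _

theorem take_mem_ps : ∀ (L : List (ℝ × ℝ)) (j : ℕ), (L.take j).sum ∈ ps L
  | [], j => by simp [ps]
  | e :: L, 0 => by simpa using zero_mem_ps (e :: L)
  | e :: L, j + 1 => by
    rw [List.take_succ_cons, List.sum_cons, ps]
    exact Or.inr ⟨_, take_mem_ps L j, rfl⟩

theorem ps_finite : ∀ L : List (ℝ × ℝ), (ps L).Finite
  | [] => finite_singleton _
  | _ :: L => ((ps_finite L).image _).insert _

theorem ps_width (v : ℝ × ℝ) : ∀ L : List (ℝ × ℝ), ∀ x ∈ ps L, ∀ x' ∈ ps L,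
    |det v x - det v x'| ≤ (L.map (fun l => |det v l|)).sum
  | [] => by
    intro x hx x' hx'
    rw [ps, mem_singleton_iff] at hx hx'
    rw [hx, hx']
    simp
  | e :: L => by
    intro x hx x' hx'
    have ih := ps_width v L
    have hz : det v 0 = 0 := by simp [det]
    rw [List.map_cons, List.sum_cons]
    rw [ps, mem_insert_iff] at hx hx'
    rcases hx with rfl | ⟨y, hy, rfl⟩ <;> rcases hx' with rfl | ⟨y', hy', rfl⟩
    · rw [sub_self, abs_zero]
      have : 0 ≤ (L.map (fun l => |det v l|)).sum :=
        List.sum_nonneg (by simp only [List.mem_map]; rintro _ ⟨l, _, rfl⟩; positivity)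
      positivity
    · have h1 := ih _ (zero_mem_ps L) _ hy'
      simp only
      rw [det_add, hz]
      rw [hz] at h1
      have h2 : (0 : ℝ) - (det v e + det v y') = -det v e + (0 - det v y') := by ring
      rw [h2]
      refine (abs_add_le _ _).trans ?_
      rw [abs_neg]
      exact add_le_add le_rfl h1
    · have h1 := ih _ hy _ (zero_mem_ps L)
      simp only
      rw [det_add, hz]
      rw [hz] at h1
      have h2 : det v e + det v y - (0 : ℝ) = det v e + (det v y - 0) := by ring
      rw [h2]
      exact (abs_add_le _ _).trans (add_le_add le_rfl h1)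
    · have h1 := ih _ hy _ hy'
      simp only
      rw [det_add, det_add]
      have h2 : det v e + det v y - (det v e + det v y') = det v y - det v y' := by ring
      rw [h2]
      have := abs_nonneg (det v e)
      linarith

theorem hull_wid {v : ℝ × ℝ} {S : Set (ℝ × ℝ)} {W : ℝ}
    (h : ∀ x ∈ S, ∀ x' ∈ S, |det v x - det v x'| ≤ W) :
    ∀ x ∈ convexHull ℝ S, ∀ x' ∈ convexHull ℝ S, |det v x - det v x'| ≤ W := by
  have hcv : ∀ c b : ℝ, Convex ℝ {x : ℝ × ℝ | |det v x - c| ≤ b} := by
    intro c b x hx y hy p q hp hq hpq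
    simp only [mem_ofPred_eq] at hx hy ⊢
    rw [det_add, det_smul, det_smul]
    have e : p * det v x + q * det v y - c = p * (det v x - c) + q * (det v y - c) := by
      have : p = 1 - q := by linarith
      subst this
      ring
    rw [e]
    calc |p * (det v x - c) + q * (det v y - c)| ≤ |p * (det v x - c)| + |q * (det v y - c)| :=
          abs_add_le _ _
      _ = p * |det v x - c| + q * |det v y - c| := by
          rw [abs_mul, abs_mul, abs_of_nonneg hp, abs_of_nonneg hq]
      _ ≤ p * b + q * b := by gcongr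
      _ = b := by rw [← add_mul, hpq, one_mul]
  intro x hx x' hx'
  have h1 : ∀ y' ∈ S, |det v x - det v y'| ≤ W := by
    intro y' hy'
    exact convexHull_min (fun y hy => h y hy y' hy') (hcv (det v y') W) hx
  have h2 : |det v x' - det v x| ≤ W :=
    convexHull_min (fun y hy => by
      show |det v y - det v x| ≤ W
      rw [abs_sub_comm]
      exact h1 y hy) (hcv (det v x) W) hx'
  rwa [abs_sub_comm]

/-- the length of the projection of a compact set -/
theorem vol_det_le {v : ℝ × ℝ} {P : Set (ℝ × ℝ)} (hc : IsCompact P) {W : ℝ}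
    (h : ∀ x ∈ P, ∀ x' ∈ P, |det v x - det v x'| ≤ W) :
    volume (det v '' P) ≤ ENNReal.ofReal W := by
  rcases P.eq_empty_or_nonempty with he | hne
  · rw [he]; simp
  · obtain ⟨x, hx, hxm⟩ := hc.exists_isMinOn hne (det_cont v).continuousOn
    have hsub : det v '' P ⊆ Icc (det v x) (det v x + W) := by
      rintro _ ⟨y, hy, rfl⟩
      refine ⟨hxm hy, ?_⟩
      have := (abs_le.1 (h y hy x hx)).2
      linarith
    refine (measure_mono hsub).trans ?_
    rw [Real.volume_Icc]
    apply le_of_eq
    congr 1
    ring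

/-- the sum of the determinants of the pairs of edges (ordered pairs) -/
noncomputable def DL : List (ℝ × ℝ) → ℝ
  | [] => 0
  | e :: L => DL L + 2 * (L.map fun l => |det e l|).sum

theorem sum_det_nonneg (v : ℝ × ℝ) (L : List (ℝ × ℝ)) : 0 ≤ (L.map fun l => |det v l|).sum :=
  List.sum_nonneg (by simp only [List.mem_map]; rintro _ ⟨l, _, rfl⟩; positivity)

theorem DL_nonneg : ∀ L : List (ℝ × ℝ), 0 ≤ DL L
  | [] => le_rfl
  | e :: L => by
    rw [DL]
    have h1 := DL_nonneg L
    have h2 := sum_det_nonneg e L
    positivity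

theorem det_neg_abs (e l : ℝ × ℝ) : |det (-e) l| = |det e l| := by
  rw [← abs_neg]
  congr 1
  simp only [det, Prod.fst_neg, Prod.snd_neg]
  ring

theorem hull_fin_compact {S : Set (ℝ × ℝ)} (h : S.Finite) : IsCompact (convexHull ℝ S) :=
  h.isCompact_convexHull (𝕜 := ℝ)

/-- **the area of the convex hull of a path** -/
theorem hull_le : ∀ L : List (ℝ × ℝ),
    volume (convexHull ℝ (ps L)) ≤ ENNReal.ofReal (DL L / 4)
  | [] => by simp [ps]
  | e :: L => by
    have ih := hull_le L
    obtain ⟨K, hK⟩ : ∃ K, K = convexHull ℝ (ps L) := ⟨_, rfl⟩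
    rw [← hK] at ih
    have hKc : IsCompact K := by rw [hK]; exact hull_fin_compact (ps_finite L)
    have hKv : Convex ℝ K := by rw [hK]; exact convex_convexHull ℝ _
    have h0 : (0 : ℝ × ℝ) ∈ K := by rw [hK]; exact subset_convexHull ℝ _ (zero_mem_ps L)
    have e1 : ps (e :: L) = e +ᵥ (insert (0 + -e) (ps L)) := by
      rw [ps, zero_add, vadd_set_insert]
      congr 1
      simp
    rw [e1, convexHull_vadd, measure_vadd]
    have h1 : convexHull ℝ (insert (0 + -e) (ps L)) ⊆ convexHull ℝ (insert (0 + -e) K) := by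
      apply convexHull_mono
      apply insert_subset_insert
      rw [hK]
      exact subset_convexHull ℝ _
    refine (measure_mono h1).trans ((tent (-e) hKc hKv h0).trans ?_)
    have h2 : volume (det (-e) '' K) ≤ ENNReal.ofReal ((L.map fun l => |det e l|).sum) := by
      apply vol_det_le hKc
      have h3 := ps_width (-e) L
      simp only [det_neg_abs] at h3
      rw [hK]
      exact hull_wid h3
    refine (add_le_add ih (ENNReal.div_le_div_right h2 2)).trans (le_of_eq ?_)
    have h5 := DL_nonneg L
    have h6 := sum_det_nonneg e L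
    rw [DL, show (2 : ℝ≥0∞) = ENNReal.ofReal 2 by simp, ← ENNReal.ofReal_div_of_pos (by norm_num),
      ← ENNReal.ofReal_add (by positivity) (by positivity)]
    congr 1
    ring

theorem DS_get : ∀ L : List (ℝ × ℝ), AR.DS (fun i : Fin L.length => L.get i) = DL L
  | [] => by simp [AR.DS, DL]
  | e :: L => by
    have ih := DS_get L
    have hlen : (e :: L).length = L.length + 1 := rfl
    have e2 : AR.DS (fun i : Fin (e :: L).length => (e :: L).get i) =
        AR.DS (Fin.cons e (fun i : Fin L.length => L.get i) : Fin (L.length + 1) → ℝ × ℝ) := by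
      congr 1
      funext i
      refine Fin.cases ?_ (fun j => ?_) i
      · rfl
      · rfl
    rw [e2, DL, ← ih]
    unfold AR.DS
    rw [Fin.sum_univ_succ]
    simp only [Fin.sum_univ_succ (fun j => |det _ ((Fin.cons e (fun i : Fin L.length => L.get i) :
      Fin (L.length + 1) → ℝ × ℝ) j)|), Fin.cons_zero, Fin.cons_succ]
    rw [Finset.sum_add_distrib, det_self, abs_zero, zero_add]
    simp only [det_comm_abs _ e]
    have e3 : ∑ i : Fin L.length, |det e (L.get i)| = (L.map fun l => |det e l|).sum := by
      have := Fin.sum_univ_fun_getElem L (fun l => |det e l|)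
      rw [← this]
      rfl
    rw [e3]
    ring

/-- **Wulff's inequality for the hull of a path** -/
theorem iso {K : Set (ℝ × ℝ)} (hK : IsCompact K) (hne : K.Nonempty) (hR : Refl K) (hS : Swp K)
    (L : List (ℝ × ℝ)) :
    √(2 * volume.real K * volume.real (convexHull ℝ (ps L))) ≤ (L.map (sup K)).sum := by
  have h1 := AR.wz L.length (fun i => L.get i) K (fun i => sup K (L.get i)) hK (by
    intro j
    obtain ⟨x, hx⟩ := hne
    have h2 := WS.det_le_sup hK hR hS (L.get j) hx
    have h3 := WS.det_le_sup hK hR hS (L.get j) (show -x ∈ K by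
      exact (hR _ (hR _ hx).1).2)
    have h4 : det (L.get j) (-x) = -det (L.get j) x := by
      simp only [det, Prod.fst_neg, Prod.snd_neg]
      ring
    linarith) (by
    intro j x hx
    have h2 := WS.det_le_sup hK hR hS (L.get j) hx
    have h3 := WS.det_le_sup hK hR hS (L.get j) (show -x ∈ K by
      exact (hR _ (hR _ hx).1).2)
    have h4 : det (L.get j) (-x) = -det (L.get j) x := by
      simp only [det, Prod.fst_neg, Prod.snd_neg]
      ring
    rw [abs_le]
    constructor <;> linarith)
  have e1 : ∑ j : Fin L.length, sup K (L.get j) = (L.map (sup K)).sum := by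
    have := Fin.sum_univ_fun_getElem L (sup K)
    rw [← this]
    rfl
  rw [e1] at h1
  refine le_trans (Real.sqrt_le_sqrt ?_) h1
  have h2 := DS_get L
  unfold AR.DS at h2
  rw [h2]
  have h3 : volume.real (convexHull ℝ (ps L)) ≤ DL L / 4 := by
    unfold Measure.real
    apply ENNReal.toReal_le_of_le_ofReal _ (hull_le L)
    have := DL_nonneg L
    positivity
  have h4 : 0 ≤ volume.real K := measureReal_nonneg
  nlinarith

end Pool.Agent.H26.HA
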