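import Pool.Agent.H26.AR.Planar

/-!
The area of the convex hull of a planar path with given edges.
-/

set_option autoImplicit false

open MeasureTheory Set
open scoped ENNReal Pointwise

namespace Pool.Agent.H26.HA

open Pool.Agent.T6.H44.AR (det)
open Pool.Agent.H26.AR (TL det_TL det_TL_apply det_add det_smul det_cont det_self det_comm_abs)

/-- half the length of an interval as an integral of a tent function -/
theorem tent_int {m M c : ℝ} (h1 : m ≤ c) (h2 : c ≤ M) (τ : ℝ → ℝ≥0∞)
    (hτ1 : ∀ t, m ≤ t → t < c → τ t ≤ ENNReal.ofReal ((t - m) / (c - m)))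
    (hτ2 : ∀ t, c < t → t ≤ M → τ t ≤ ENNReal.ofReal ((M - t) / (M - c)))
    (hτ3 : ∀ t, t < m → τ t = 0) (hτ4 : ∀ t, M < t → τ t = 0) :
    ∫⁻ t, τ t ≤ ENNReal.ofReal ((M - m) / 2) := by
  have hsplit : ∫⁻ t, τ t ≤ ∫⁻ t, ((Icc m c).indicator (fun t => ENNReal.ofReal ((t - m) / (c - m))) t
      + (Icc c M).indicator (fun t => ENNReal.ofReal ((M - t) / (M - c))) t) := by
    apply lintegral_mono_ae
    have hne : ∀ᵐ t : ℝ, t ≠ c := by
      rw [ae_iff]
      simp
    filter_upwards [hne] with t ht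
    rcases lt_or_gt_of_ne ht with h | h
    · rcases lt_or_ge t m with h3 | h3
      · rw [hτ3 t h3]; exact zero_le
      · refine (hτ1 t h3 h).trans ?_
        rw [indicator_of_mem (show t ∈ Icc m c from ⟨h3, h.le⟩)]
        exact le_self_add
    · rcases lt_or_ge M t with h3 | h3
      · rw [hτ4 t h3]; exact zero_le
      · refine (hτ2 t h h3).trans ?_
        rw [indicator_of_mem (show t ∈ Icc c M from ⟨h.le, h3⟩)]
        exact le_add_self
  refine hsplit.trans ?_
  rw [lintegral_add_left (by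
    apply Measurable.indicator _ measurableSet_Icc
    fun_prop)]
  rw [lintegral_indicator measurableSet_Icc, lintegral_indicator measurableSet_Icc]
  have e1 : ∫⁻ t in Icc m c, ENNReal.ofReal ((t - m) / (c - m)) = ENNReal.ofReal ((c - m) / 2) := by
    rw [← ofReal_integral_eq_lintegral_ofReal]
    · congr 1
      rw [integral_Icc_eq_integral_Ioc, ← intervalIntegral.integral_of_le h1]
      rcases h1.eq_or_lt with h | h
      · rw [h]; simp
      · have hne : c - m ≠ 0 := by linarith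
        rw [intervalIntegral.integral_div, intervalIntegral.integral_sub
          (Continuous.intervalIntegrable (by fun_prop) _ _)
          (Continuous.intervalIntegrable (by fun_prop) _ _)]
        rw [integral_id, intervalIntegral.integral_const]
        simp only [smul_eq_mul]
        field_simp
        ring
    · apply Continuous.integrableOn_Icc
      fun_prop
    · rw [Filter.EventuallyLE, ae_restrict_iff' measurableSet_Icc]
      refine Filter.Eventually.of_forall fun t ht => ?_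
      exact div_nonneg (by linarith [ht.1]) (by linarith)
  have e2 : ∫⁻ t in Icc c M, ENNReal.ofReal ((M - t) / (M - c)) = ENNReal.ofReal ((M - c) / 2) := by
    rw [← ofReal_integral_eq_lintegral_ofReal]
    · congr 1
      rw [integral_Icc_eq_integral_Ioc, ← intervalIntegral.integral_of_le h2]
      rcases h2.eq_or_lt with h | h
      · rw [h]; simp
      · have hne : M - c ≠ 0 := by linarith
        rw [intervalIntegral.integral_div, intervalIntegral.integral_sub
          (Continuous.intervalIntegrable (by fun_prop) _ _)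
          (Continuous.intervalIntegrable (by fun_prop) _ _)]
        rw [integral_id, intervalIntegral.integral_const]
        simp only [smul_eq_mul]
        field_simp
        ring
    · apply Continuous.integrableOn_Icc
      fun_prop
    · rw [Filter.EventuallyLE, ae_restrict_iff' measurableSet_Icc]
      refine Filter.Eventually.of_forall fun t ht => ?_
      exact div_nonneg (by linarith [ht.2]) (by linarith)
  rw [e1, e2, ← ENNReal.ofReal_add (by linarith) (by linarith)]
  apply le_of_eq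
  congr 1
  ring

/-- the hull with one more point, horizontally displaced -/
theorem tent_e1 {Q : Set (ℝ × ℝ)} (hc : IsCompact Q) (hv : Convex ℝ Q) {v : ℝ × ℝ} (hvQ : v ∈ Q) :
    volume (convexHull ℝ (insert (v + (1, 0)) Q)) ≤
      volume Q + volume (Prod.snd '' Q) / 2 := by
  obtain ⟨H, hH⟩ : ∃ H, H = convexHull ℝ (insert (v + (1, 0)) Q) := ⟨_, rfl⟩
  have hHeq : ∀ p, p ∈ H → ∃ k ∈ Q, ∃ s : ℝ, 0 ≤ s ∧ s ≤ 1 ∧
      p = (1 - s) • k + s • (v + (1, 0)) := by
    intro p hp
    rw [hH, convexHull_insert ⟨v, hvQ⟩, hv.convexHull_eq, mem_convexJoin] at hp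
    obtain ⟨x, hx, k, hk, hpk⟩ := hp
    rw [mem_singleton_iff] at hx
    subst hx
    obtain ⟨a, b, ha, hb, hab, rfl⟩ := hpk
    refine ⟨k, hk, a, ha, by linarith, ?_⟩
    have : b = 1 - a := by linarith
    rw [this, add_comm]
  have hHc : IsCompact H := by
    rw [hH, convexHull_insert ⟨v, hvQ⟩, hv.convexHull_eq]
    have : convexJoin ℝ {v + (1, 0)} Q =
        (fun q : ℝ × (ℝ × ℝ) => (1 - q.1) • q.2 + q.1 • (v + (1, 0))) '' (Icc 0 1 ×ˢ Q) := by
      ext p
      rw [mem_convexJoin]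
      constructor
      · rintro ⟨x, hx, k, hk, hpk⟩
        rw [mem_singleton_iff] at hx
        subst hx
        obtain ⟨a, b, ha, hb, hab, rfl⟩ := hpk
        refine ⟨(a, k), ⟨⟨ha, by simp only; linarith⟩, hk⟩, ?_⟩
        have : b = 1 - a := by linarith
        simp only
        rw [this, add_comm]
      · rintro ⟨⟨a, k⟩, ⟨⟨h1, h2⟩, hk⟩, rfl⟩
        simp only at h1 h2 hk ⊢
        exact ⟨_, rfl, k, hk, a, 1 - a, h1, by linarith, by ring, by rw [add_comm]⟩
    rw [this]
    apply IsCompact.image (isCompact_Icc.prod hc)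
    fun_prop
  obtain ⟨P, hP⟩ : ∃ P, P = Prod.snd '' Q := ⟨_, rfl⟩
  have hPc : IsCompact P := by rw [hP]; exact hc.image continuous_snd
  have hPv : Convex ℝ P := by
    rw [hP]
    exact hv.linear_image (LinearMap.snd ℝ ℝ ℝ)
  have hvP : v.2 ∈ P := by rw [hP]; exact ⟨v, hvQ, rfl⟩
  have hIcc := eq_Icc_of_connected_compact ⟨⟨_, hvP⟩, hPv.isPreconnected⟩ hPc
  obtain ⟨m, hm⟩ : ∃ m, m = sInf P := ⟨_, rfl⟩
  obtain ⟨M, hM⟩ : ∃ M, M = sSup P := ⟨_, rfl⟩
  rw [← hm, ← hM] at hIcc
  have hvm : m ≤ v.2 ∧ v.2 ≤ M := by rw [hIcc] at hvP; exact hvP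
  have hQP : ∀ k ∈ Q, m ≤ k.2 ∧ k.2 ≤ M := by
    intro k hk
    have : k.2 ∈ P := by rw [hP]; exact ⟨k, hk, rfl⟩
    rw [hIcc] at this
    exact this
  rw [← hH, ← hP]
  rw [Measure.volume_eq_prod, Measure.prod_apply_symm hHc.measurableSet,
    Measure.prod_apply_symm hc.measurableSet]
  have hmeasQ : Measurable fun t : ℝ => volume ((fun s : ℝ => (s, t)) ⁻¹' Q) :=
    measurable_measure_prodMk_right hc.measurableSet
  obtain ⟨τ, hτ⟩ : ∃ τ : ℝ → ℝ≥0∞, τ = fun t => volume ((fun s : ℝ => (s, t)) ⁻¹' H) -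
    volume ((fun s : ℝ => (s, t)) ⁻¹' Q) := ⟨_, rfl⟩
  -- the fibres
  have hfibC : ∀ (A : Set (ℝ × ℝ)), IsCompact A → ∀ t : ℝ, IsCompact ((fun s : ℝ => (s, t)) ⁻¹' A) := by
    intro A hA t
    have hemb : Topology.IsClosedEmbedding (fun s : ℝ => (s, t)) := by
      refine Topology.IsClosedEmbedding.of_continuous_injective_isClosedMap (by fun_prop) ?_ ?_
      · intro a b hab
        exact (Prod.mk.inj hab).1
      · intro C hC
        have : (fun s : ℝ => (s, t)) '' C = C ×ˢ {t} := by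
          ext ⟨a, b⟩
          simp only [mem_image, Prod.mk.injEq, mem_prod, mem_singleton_iff]
          constructor
          · rintro ⟨x, hx, rfl, rfl⟩
            exact ⟨hx, rfl⟩
          · rintro ⟨h1, rfl⟩
            exact ⟨a, h1, rfl, rfl⟩
        rw [this]
        exact hC.prod isClosed_singleton
    exact hemb.isCompact_preimage hA
  have hfibV : ∀ t : ℝ, Convex ℝ ((fun s : ℝ => (s, t)) ⁻¹' Q) := by
    intro t a ha b hb p q hp hq hpq
    have := hv ha hb hp hq hpq
    simp only [mem_preimage] at this ⊢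
    convert this using 1
    simp only [Prod.smul_mk, Prod.mk_add_mk, smul_eq_mul, Prod.mk.injEq, true_and]
    rw [← add_mul, hpq, one_mul]
  -- the bound of a fibre
  have hfib : ∀ t : ℝ, ∀ b : ℝ, 0 ≤ b → (∀ k ∈ Q, ∀ s : ℝ, 0 ≤ s → s ≤ 1 →
      t = (1 - s) * k.2 + s * v.2 → s ≤ b) →
      volume ((fun s : ℝ => (s, t)) ⁻¹' H) ≤
        volume ((fun s : ℝ => (s, t)) ⁻¹' Q) + ENNReal.ofReal b := by
    intro t b hb hs
    have hsub : (fun s : ℝ => (s, t)) ⁻¹' H ⊆ (fun s : ℝ => (s, t)) ⁻¹' Q + Icc 0 b := by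
      intro x hx
      obtain ⟨k, hk, s, hs0, hs1, he⟩ := hHeq _ hx
      have he1 := congrArg Prod.fst he
      have he2 := congrArg Prod.snd he
      simp only [Prod.fst_add, Prod.smul_fst, Prod.snd_add, Prod.smul_snd, smul_eq_mul,
        add_zero] at he1 he2
      have h1 := hs k hk s hs0 hs1 he2
      refine ⟨x - s, ?_, s, ⟨hs0, h1⟩, by simp⟩
      have h2 := hv hk hvQ (a := 1 - s) (b := s) (by linarith) hs0 (by ring)
      show (x - s, t) ∈ Q
      convert h2 using 1
      ext
      · simp only [Prod.fst_add, Prod.smul_fst, smul_eq_mul]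
        linarith
      · simp only [Prod.snd_add, Prod.smul_snd, smul_eq_mul]
        exact he2
    refine (measure_mono hsub).trans ?_
    rcases ((fun s : ℝ => (s, t)) ⁻¹' Q).eq_empty_or_nonempty with he | hne
    · rw [he, empty_add]
      simp
    · have hI := eq_Icc_of_connected_compact ⟨hne, (hfibV t).isPreconnected⟩ (hfibC Q hc t)
      obtain ⟨x, hx⟩ : ∃ x, x = sInf ((fun s : ℝ => (s, t)) ⁻¹' Q) := ⟨_, rfl⟩
      obtain ⟨y, hy⟩ : ∃ y, y = sSup ((fun s : ℝ => (s, t)) ⁻¹' Q) := ⟨_, rfl⟩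
      rw [← hx, ← hy] at hI
      obtain ⟨a, ha⟩ := hne
      rw [hI] at ha ⊢
      have hxy : x ≤ y := ha.1.trans ha.2
      rw [Icc_add_Icc hxy hb, Real.volume_Icc, Real.volume_Icc]
      have e : y + b - (x + 0) = (y - x) + b := by ring
      rw [e, ENNReal.ofReal_add (by linarith) hb]
  have hQfin : ∀ t : ℝ, volume ((fun s : ℝ => (s, t)) ⁻¹' Q) ≠ ∞ := fun t =>
    (hfibC Q hc t).measure_lt_top.ne
  have hle : ∀ t, volume ((fun s : ℝ => (s, t)) ⁻¹' H) ≤
      volume ((fun s : ℝ => (s, t)) ⁻¹' Q) + τ t := by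
    intro t
    rw [hτ]
    exact le_add_tsub
  have hτb : ∀ t b : ℝ, 0 ≤ b → (∀ k ∈ Q, ∀ s : ℝ, 0 ≤ s → s ≤ 1 →
      t = (1 - s) * k.2 + s * v.2 → s ≤ b) → τ t ≤ ENNReal.ofReal b := by
    intro t b hb hs
    rw [hτ]
    simp only
    rw [tsub_le_iff_left]
    exact hfib t b hb hs
  have hout : ∀ t, (t < m ∨ M < t) → (fun s : ℝ => (s, t)) ⁻¹' H = ∅ := by
    intro t ht
    rw [eq_empty_iff_forall_notMem]
    intro x hx
    obtain ⟨k, hk, s, hs0, hs1, he⟩ := hHeq _ hx
    have he2 := congrArg Prod.snd he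
    simp only [Prod.snd_add, Prod.smul_snd, smul_eq_mul, add_zero] at he2
    have h1 := hQP k hk
    rcases ht with ht | ht
    · nlinarith [mul_nonneg (sub_nonneg.2 hs1) (sub_nonneg.2 h1.1),
        mul_nonneg hs0 (sub_nonneg.2 hvm.1)]
    · nlinarith [mul_nonneg (sub_nonneg.2 hs1) (sub_nonneg.2 h1.2),
        mul_nonneg hs0 (sub_nonneg.2 hvm.2)]
  refine (lintegral_mono hle).trans ?_
  rw [lintegral_add_left hmeasQ]
  refine add_le_add le_rfl ?_
  have hvolP : volume P / 2 = ENNReal.ofReal ((M - m) / 2) := by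
    rw [hIcc, Real.volume_Icc, ENNReal.ofReal_div_of_pos (by norm_num)]
    simp
  rw [hvolP]
  apply tent_int hvm.1 hvm.2 τ
  · intro t h1 h2
    apply hτb t _ (div_nonneg (by linarith) (by linarith))
    intro k hk s hs0 hs1 he
    rw [le_div_iff₀ (by linarith)]
    have h3 := hQP k hk
    nlinarith [mul_nonneg (sub_nonneg.2 hs1) (sub_nonneg.2 h3.1)]
  · intro t h1 h2
    apply hτb t _ (div_nonneg (by linarith) (by linarith))
    intro k hk s hs0 hs1 he
    rw [le_div_iff₀ (by linarith)]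
    have h3 := hQP k hk
    nlinarith [mul_nonneg (sub_nonneg.2 hs1) (sub_nonneg.2 h3.2)]
  · intro t ht
    rw [hτ]
    simp only
    rw [hout t (Or.inl ht)]
    simp
  · intro t ht
    rw [hτ]
    simp only
    rw [hout t (Or.inr ht)]
    simp

/-- **the hull with one more point** -/
theorem tent (z : ℝ × ℝ) {P : Set (ℝ × ℝ)} (hc : IsCompact P) (hv : Convex ℝ P) {v : ℝ × ℝ}
    (hvP : v ∈ P) :
    volume (convexHull ℝ (insert (v + z) P)) ≤ volume P + volume (det z '' P) / 2 := by
  rcases eq_or_ne z 0 with rfl | hz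
  · rw [add_zero, insert_eq_of_mem hvP, hv.convexHull_eq]
    exact le_self_add
  · have hn : 0 < z.1 ^ 2 + z.2 ^ 2 := by
      by_contra hcon
      have h1 : z.1 = 0 := by nlinarith [sq_nonneg z.1, sq_nonneg z.2]
      have h2 : z.2 = 0 := by nlinarith [sq_nonneg z.1, sq_nonneg z.2]
      exact hz (Prod.ext h1 h2)
    obtain ⟨w, hw⟩ : ∃ w : ℝ × ℝ, det z w = 1 := by
      refine ⟨(-z.2 / (z.1 ^ 2 + z.2 ^ 2), z.1 / (z.1 ^ 2 + z.2 ^ 2)), ?_⟩
      simp only [det]
      field_simp
      ring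
    have hdet : LinearMap.det (TL z w) = 1 := by rw [det_TL, hw]
    have hT : ∀ x, det z (TL z w x) = x.2 := by
      intro x
      rw [det_TL_apply, hw, one_mul]
    obtain ⟨e, he⟩ : ∃ e : (ℝ × ℝ) ≃ₗ[ℝ] (ℝ × ℝ), (e : ℝ × ℝ →ₗ[ℝ] ℝ × ℝ) = TL z w :=
      ⟨LinearEquiv.ofIsUnitDet (f := TL z w) (v := Module.Basis.finTwoProd ℝ)
        (v' := Module.Basis.finTwoProd ℝ) (by
          rw [LinearMap.det_toMatrix, hdet]
          exact isUnit_one), by ext <;> rfl⟩
    have he' : ∀ x, e x = TL z w x := fun x => by rw [← he]; rfl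
    have hcont : Continuous (e.symm : ℝ × ℝ → ℝ × ℝ) :=
      LinearMap.continuous_of_finiteDimensional (e.symm : ℝ × ℝ →ₗ[ℝ] ℝ × ℝ)
    obtain ⟨Q, hQ⟩ : ∃ Q, Q = e.symm '' P := ⟨_, rfl⟩
    have hQc : IsCompact Q := by rw [hQ]; exact hc.image hcont
    have hQv : Convex ℝ Q := by
      rw [hQ]
      exact hv.linear_image (e.symm : ℝ × ℝ →ₗ[ℝ] ℝ × ℝ)
    have hP : P = TL z w '' Q := by
      rw [hQ, image_image]
      have : (fun x => TL z w (e.symm x)) = id := by
        funext x
        rw [← he', e.apply_symm_apply]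
        rfl
      rw [this, image_id]
    have hvol : ∀ A : Set (ℝ × ℝ), volume (TL z w '' A) = volume A := by
      intro A
      rw [Measure.addHaar_image_linearMap, hdet]
      simp
    have himg : det z '' P = Prod.snd '' Q := by
      rw [hP, image_image]
      simp only [hT]
    have hvQ : e.symm v ∈ Q := by rw [hQ]; exact ⟨v, hvP, rfl⟩
    have hpt : v + z = TL z w (e.symm v + (1, 0)) := by
      rw [map_add, ← he', e.apply_symm_apply]
      congr 1
      simp [TL]
    have hhull : convexHull ℝ (insert (v + z) P) =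
        TL z w '' (convexHull ℝ (insert (e.symm v + (1, 0)) Q)) := by
      rw [LinearMap.image_convexHull, image_insert_eq, ← hP, ← hpt]
    rw [himg, hhull, hvol]
    conv_rhs => rw [hP, hvol]
    exact tent_e1 hQc hQv hvQ

end Pool.Agent.H26.HA
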