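import Pool.Agent.H26.HA.Path
import Pool.Agent.H26.WS.Shape

/-!
Upper bound for the number of the walks whose convex hull has a large area.
-/

set_option autoImplicit false

open MeasureTheory Set Filter Topology Metric
open scoped ENNReal Pointwise

namespace Pool.Agent.H26.HA

open Pool.Agent.T6.H44 Pool.Agent.T6.H44.PG
open Pool.Agent.T6.H44.AR (det)
open Pool.Agent.TH795.EP Pool.Agent.TH795.EP2 Pool.Agent.TH795.SE2 Pool.Agent.TH262.SawL
  Pool.Agent.Y981.L2 H981 Pool.Agent.H26.WS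
open Pool.Agent.H26.WF (Kc V)

theorem count_open {N : ℕ} (hN0' : 0 < N) {ε : ℝ} (hε : 0 < ε) :
    ∀ᶠ n : ℕ in atTop, 2 ≤ n ∧ ∀ S : Finset (List St), S.Nonempty →
      (∀ W ∈ S, Saw W ∧ W.length = n) → ∃ W ∈ S, ∃ ms : List ℕ, (∀ m ∈ ms, m ≤ n / N + 1) ∧
      W.length = ms.sum ∧ (∀ e ∈ cut ms W, 1 ≤ e.1 ∧ |e.2.1| + |e.2.2| ≤ (e.1 : ℤ)) ∧
      (S.card : ℝ) ≤ Real.exp (-(n * AR.cost Rate (scl n (cut ms W))) + ε * n) * mu ^ n := by
  classical
  obtain ⟨K1, hK1, h1⟩ := Y981.L2.a_le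
  have hN0 : (0 : ℝ) < N := by exact_mod_cast hN0'
  obtain ⟨C, hC, hlog⟩ := log_dom (2 * (N + 1) + (N + 1) * K1) (show 0 < ε / 16 by linarith)
  filter_upwards [eventually_ge_atTop 2,
    tendsto_natCast_atTop_atTop.eventually_ge_atTop (2 * C / ε)] with n hn2 hnC
  refine ⟨hn2, ?_⟩
  intro S hSne hS
  have hnpos : (0 : ℝ) < n := by exact_mod_cast (by omega : 0 < n)
  have hmu := mu_pos
  obtain ⟨s, hs⟩ : ∃ s, s = n / N + 1 := ⟨_, rfl⟩
  have hs1' : 1 ≤ s := by rw [hs]; exact Nat.le_add_left 1 _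
  obtain ⟨ms, hm1, hm2, hm3⟩ := exists_ms hs1' n
  obtain ⟨W, hWS, hcount⟩ := cut_count ((2 * s + 1) ^ 2) ms S hSne
    (fun w hw => ⟨(hS w hw).1, by rw [hm1]; exact (hS w hw).2⟩)
    (fun m hm => Nat.pow_le_pow_left (by have := (hm2 m hm).2; omega) 2)
  obtain ⟨hW1, hW2⟩ := hS W hWS
  have hlen : W.length = ms.sum := by rw [hW2, hm1]
  obtain ⟨F, hF⟩ : ∃ F, F = cut ms W := ⟨_, rfl⟩
  have hFfst : F.map Prod.fst = ms := by rw [hF]; exact cut_fst ms W
  rw [← hF] at hcount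
  have hcard : 0 < S.card := Finset.card_pos.2 hSne
  have hpos : ∀ e ∈ F, 0 < a e.1 e.2.1 e.2.2 := by
    intro e he
    rw [Nat.pos_iff_ne_zero]
    intro h0
    have h1 : (F.map (fun e => a e.1 e.2.1 e.2.2)).prod = 0 := by
      apply List.prod_eq_zero
      rw [List.mem_map]
      exact ⟨e, he, h0⟩
    rw [h1, mul_zero] at hcount
    omega
  have hall : ∀ e ∈ F, 1 ≤ e.1 ∧ |e.2.1| + |e.2.2| ≤ (e.1 : ℤ) ∧ 0 < a e.1 e.2.1 e.2.2 := by
    intro e he
    have h1 := hpos e he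
    refine ⟨?_, ?_, h1⟩
    · have h2 : e.1 ∈ F.map Prod.fst := List.mem_map_of_mem he
      rw [hFfst] at h2
      exact (hm2 _ h2).1
    · obtain ⟨w, -, g1, g2, g3⟩ := exists_of_a h1
      have := abs_add_abs_le w
      rw [g1, g2, g3] at this
      exact this
  refine ⟨W, hWS, ms, fun m hm => hs ▸ (hm2 m hm).2, hlen,
    fun e he => ⟨(hall e (hF ▸ he)).1, (hall e (hF ▸ he)).2.1⟩, ?_⟩
  rw [← hF]
  have hsN : n / s ≤ N := by
    have g1 : n < s * N := by
      rw [hs, mul_comm (n / N + 1) N]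
      exact Nat.lt_mul_div_succ _ hN0'
    have g2 : n / s < N + 1 := by
      rw [Nat.div_lt_iff_lt_mul hs1']
      calc n < s * N := g1
        _ ≤ (N + 1) * s := by nlinarith
    omega
  have hFlen : F.length ≤ N + 1 := by
    have : F.length = ms.length := by rw [← hFfst, List.length_map]
    omega
  rw [scl_cost (by omega)]
  obtain ⟨c1, hc1⟩ : ∃ c1, c1 = (F.map (fun e => (e.1 : ℝ) *
    Rate ((e.2.1 : ℝ) / e.1, (e.2.2 : ℝ) / e.1))).sum := ⟨_, rfl⟩
  rw [← hc1, mul_div_cancel₀ _ hnpos.ne']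
  have hfst : (F.map Prod.fst).sum = n := by rw [hFfst, hm1]
  obtain ⟨p1, p2⟩ := log_prod_le hK1 h1 (show 2 ≤ n by omega) F (fun e he => by
    obtain ⟨f1, f2, f3⟩ := hall e he
    refine ⟨?_, f1, f2, f3⟩
    have : e.1 ≤ (F.map Prod.fst).sum := List.single_le_sum (by simp) _ (List.mem_map_of_mem he)
    omega)
  rw [← hc1, hfst] at p2
  have hcard' : (0 : ℝ) < S.card := by exact_mod_cast hcard
  have p3 : Real.log (S.card : ℝ) ≤
      (N + 1) * (2 * Real.log (2 * s + 1)) +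
      Real.log ((F.map (fun e => a e.1 e.2.1 e.2.2)).prod : ℕ) := by
    have g1 : (S.card : ℝ) ≤ (((2 * s + 1) ^ 2) ^ (N + 1) : ℝ) *
        ((F.map (fun e => a e.1 e.2.1 e.2.2)).prod : ℕ) := by
      have g2 : S.card ≤ ((2 * s + 1) ^ 2) ^ (N + 1) *
          (F.map (fun e => a e.1 e.2.1 e.2.2)).prod := by
        refine hcount.trans (Nat.mul_le_mul_right _ ?_)
        exact Nat.pow_le_pow_right (by positivity) (by omega)
      exact_mod_cast g2
    have g3 := Real.log_le_log hcard' g1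
    have g4 : (0 : ℝ) < ((F.map (fun e => a e.1 e.2.1 e.2.2)).prod : ℕ) := by exact_mod_cast p1
    rw [Real.log_mul (by positivity) g4.ne', Real.log_pow, Real.log_pow] at g3
    push_cast at g3 ⊢
    exact g3
  have hs8 : (2 * (s : ℝ) + 1) ≤ ((8 * n : ℕ) : ℝ) := by
    have g1 : s ≤ n + 1 := by
      rw [hs]
      have := Nat.div_le_self n N
      omega
    have g2 : 2 * s + 1 ≤ 8 * n := by omega
    exact_mod_cast g2
  have hls : Real.log (2 * (s : ℝ) + 1) ≤ Real.log ((8 * n : ℕ) : ℝ) :=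
    Real.log_le_log (by positivity) hs8
  have h8n : (16 : ℝ) ≤ ((8 * n : ℕ) : ℝ) := by exact_mod_cast (by omega : 16 ≤ 8 * n)
  have hl8 : 1 ≤ Real.log ((8 * n : ℕ) : ℝ) := by
    rw [Real.le_log_iff_exp_le (by linarith)]
    have := Real.exp_one_lt_d9
    linarith
  have hl8' : Real.log ((8 * n : ℕ) : ℝ) ≤ Real.log ((8 * n : ℕ) : ℝ) ^ 2 := by nlinarith
  have hl2 : Real.log (n : ℝ) ^ 2 ≤ Real.log ((8 * n : ℕ) : ℝ) ^ 2 := by
    apply pow_le_pow_left₀ (Real.log_nonneg (by exact_mod_cast (by omega : 1 ≤ n)))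
    apply Real.log_le_log hnpos
    exact_mod_cast (by omega : n ≤ 8 * n)
  have hlen' : (F.length : ℝ) ≤ N + 1 := by exact_mod_cast hFlen
  have l3 := hlog (8 * n)
  have l4 : C ≤ ε / 2 * n := by
    rw [div_le_iff₀ hε] at hnC
    linarith
  obtain ⟨L, hL⟩ : ∃ L, L = Real.log ((8 * n : ℕ) : ℝ) ^ 2 := ⟨_, rfl⟩
  rw [← hL] at hl8' hl2 l3
  have hL0 : 0 ≤ L := by rw [hL]; positivity
  have m1 : (N + 1) * (2 * Real.log (2 * (s : ℝ) + 1)) ≤ (N + 1) * (2 * L) :=
    mul_le_mul_of_nonneg_left (by linarith) (by linarith)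
  have m2 : (F.length : ℝ) * (K1 * Real.log (n : ℝ) ^ 2) ≤ (N + 1) * (K1 * L) := by
    apply mul_le_mul hlen' _ (by positivity) (by linarith)
    exact mul_le_mul_of_nonneg_left hl2 hK1
  rw [← Real.log_le_log_iff hcard' (by positivity), Real.log_mul (Real.exp_pos _).ne'
    (by positivity), Real.log_exp, Real.log_pow]
  push_cast at l3
  have m4 : (N + 1) * (2 * L) + (N + 1) * (K1 * L) ≤ ε * n := by
    have : (2 * ((N : ℝ) + 1) + (N + 1) * K1) * L ≤ ε / 16 * (8 * n) + C := l3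
    linarith
  linarith

/-! ### the hull of a word -/

/-- the scaled vertices of a word -/
def wpts (n : ℕ) (W : List St) : Set (ℝ × ℝ) :=
  (fun i : ℕ => (((path W i).1 : ℝ) / n, ((path W i).2 : ℝ) / n)) '' Iic W.length

theorem wpts_finite (n : ℕ) (W : List St) : (wpts n W).Finite := (finite_Iic _).image _

theorem wpts_ne (n : ℕ) (W : List St) : (wpts n W).Nonempty := ⟨_, 0, by simp, rfl⟩

theorem ps_norm : ∀ L : List (ℝ × ℝ), ∀ x ∈ ps L, ‖x‖ ≤ (L.map norm).sum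
  | [] => by
    intro x hx
    rw [ps, mem_singleton_iff] at hx
    rw [hx]
    simp
  | e :: L => by
    intro x hx
    have h0 : 0 ≤ (L.map norm).sum :=
      List.sum_nonneg (by simp only [List.mem_map]; rintro _ ⟨l, _, rfl⟩; positivity)
    rw [List.map_cons, List.sum_cons]
    rw [ps, mem_insert_iff] at hx
    rcases hx with rfl | ⟨y, hy, rfl⟩
    · rw [norm_zero]
      positivity
    · exact (norm_add_le _ _).trans (add_le_add le_rfl (ps_norm L y hy))

theorem scl_norm {n : ℕ} (hn : 0 < n) : ∀ F : List (ℕ × (ℤ × ℤ)),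
    (∀ e ∈ F, 1 ≤ e.1 ∧ |e.2.1| + |e.2.2| ≤ (e.1 : ℤ)) →
    (((scl n F).map Prod.snd).map norm).sum ≤ (((F.map Prod.fst).sum : ℕ) : ℝ) / n
  | [], _ => by simp [scl]
  | e :: F, h => by
    have ih := scl_norm hn F (fun e' he' => h e' (by simp [he']))
    have hn0 : (0 : ℝ) < n := by exact_mod_cast hn
    have h1 := (h e (by simp)).2
    have h2 : |(e.2.1 : ℝ)| + |(e.2.2 : ℝ)| ≤ e.1 := by exact_mod_cast h1
    unfold scl at ih ⊢
    simp only [List.map_cons, List.sum_cons] at ih ⊢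
    push_cast
    rw [add_div]
    refine add_le_add ?_ (by push_cast at ih; exact ih)
    rw [Prod.norm_def, Real.norm_eq_abs, Real.norm_eq_abs]
    simp only
    rw [abs_div, abs_div, abs_of_pos hn0]
    apply max_le
    · apply div_le_div_of_nonneg_right _ hn0.le
      have := abs_nonneg (e.2.2 : ℝ)
      linarith
    · apply div_le_div_of_nonneg_right _ hn0.le
      have := abs_nonneg (e.2.1 : ℝ)
      linarith

/-- the box as a zonogon -/
noncomputable def bz (η : ℝ) : Fin 2 → ℝ × ℝ := ![(η, 0), (0, η)]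

theorem mem_bz {η : ℝ} (hη : 0 < η) {x : ℝ × ℝ} (h1 : |x.1| ≤ η) (h2 : |x.2| ≤ η) :
    x ∈ AR.Zn (bz η) := by
  refine ⟨![x.1 / η, x.2 / η], ?_, ?_⟩
  · intro j
    fin_cases j
    · simp only [Fin.zero_eta, Matrix.cons_val_zero]
      rw [abs_div, abs_of_pos hη, div_le_one hη]
      exact h1
    · simp only [Fin.mk_one, Matrix.cons_val_one, Matrix.cons_val_zero]
      rw [abs_div, abs_of_pos hη, div_le_one hη]
      exact h2
  · rw [Fin.sum_univ_two]
    simp only [bz, Matrix.cons_val_zero, Matrix.cons_val_one]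
    ext
    · simp [hη.ne']
    · simp [hη.ne']

theorem hull_add {P : Set (ℝ × ℝ)} (hc : IsCompact P) (hv : Convex ℝ P)
    (hb : ∀ x ∈ P, ‖x‖ ≤ 1) {η : ℝ} (hη : 0 ≤ η) :
    volume (P + AR.Zn (bz η)) ≤ volume P + ENNReal.ofReal (8 * η + 4 * η ^ 2) := by
  have h := H26.AR.add_Zn_le hc hv (bz η) (fun _ => η) (fun _ => hη) (by
    intro j x hx
    have h1 := hb x hx
    have h2 : |x.1| ≤ 1 := (norm_fst_le x).trans h1
    have h3 : |x.2| ≤ 1 := (norm_snd_le x).trans h1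
    fin_cases j
    · simp only [bz, det, Fin.zero_eta, Matrix.cons_val_zero, zero_mul, sub_zero, abs_mul,
        abs_of_nonneg hη]
      exact mul_le_of_le_one_right hη h3
    · simp only [bz, det, Fin.mk_one, Matrix.cons_val_one, Matrix.cons_val_zero, zero_mul,
        zero_sub, abs_neg, abs_mul, abs_of_nonneg hη]
      exact mul_le_of_le_one_right hη h2)
  refine h.trans (add_le_add le_rfl (ENNReal.ofReal_le_ofReal (le_of_eq ?_)))
  unfold H26.AR.DS
  simp only [Fin.sum_univ_two, bz, det, Matrix.cons_val_zero, Matrix.cons_val_one]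
  rw [show η * 0 - 0 * η = 0 by ring, show η * η - 0 * 0 = η ^ 2 by ring,
    show (0 : ℝ) * 0 - η * η = -η ^ 2 by ring, show 0 * η - η * 0 = (0 : ℝ) by ring, abs_zero,
    abs_neg, abs_of_nonneg (sq_nonneg η)]
  ring

/-- **the hull of a word and the hull of the cut points** -/
theorem hull_cut {n s : ℕ} (hn : 0 < n) (hs : 0 < s) {ms : List ℕ} (hms : ∀ m ∈ ms, m ≤ s)
    {W : List St} (hW : W.length = ms.sum) (hWn : W.length = n)
    (hF : ∀ e ∈ cut ms W, 1 ≤ e.1 ∧ |e.2.1| + |e.2.2| ≤ (e.1 : ℤ)) :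
    volume.real (convexHull ℝ (wpts n W)) ≤
      volume.real (convexHull ℝ (ps ((scl n (cut ms W)).map Prod.snd))) +
        (8 * ((s : ℝ) / n) + 4 * ((s : ℝ) / n) ^ 2) := by
  have hn0 : (0 : ℝ) < n := by exact_mod_cast hn
  have hs0 : (0 : ℝ) < s := by exact_mod_cast hs
  obtain ⟨η, hη⟩ : ∃ η : ℝ, η = (s : ℝ) / n := ⟨_, rfl⟩
  have hη0 : 0 < η := by rw [hη]; positivity
  rw [← hη]
  obtain ⟨L, hL⟩ : ∃ L, L = (scl n (cut ms W)).map Prod.snd := ⟨_, rfl⟩
  rw [← hL]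
  obtain ⟨P, hP⟩ : ∃ P, P = convexHull ℝ (ps L) := ⟨_, rfl⟩
  have hPc : IsCompact P := by rw [hP]; exact hull_fin_compact (ps_finite L)
  have hPv : Convex ℝ P := by rw [hP]; exact convex_convexHull ℝ _
  have hb : ∀ x ∈ P, ‖x‖ ≤ 1 := by
    intro x hx
    have h1 : ps L ⊆ closedBall 0 1 := by
      intro y hy
      rw [mem_closedBall_zero_iff]
      refine (ps_norm L y hy).trans ?_
      rw [hL]
      refine (scl_norm hn _ hF).trans ?_
      rw [cut_fst, ← hW, hWn, div_self hn0.ne']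
    have h2 : P ⊆ closedBall 0 1 := by
      rw [hP]
      exact convexHull_min h1 (convex_closedBall _ _)
    have := h2 hx
    rwa [mem_closedBall_zero_iff] at this
  have hsub : convexHull ℝ (wpts n W) ⊆ P + AR.Zn (bz η) := by
    apply convexHull_min _ (hPv.add (H26.AR.Zn_convex _))
    rintro _ ⟨i, hi, rfl⟩
    obtain ⟨j, hj, h1⟩ := near_cut ms hms W hW i hi
    have h2 := scl_take n (cut ms W) j
    rw [← hL] at h2
    have h3 : (L.take j).sum ∈ P := by
      rw [hP]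
      exact subset_convexHull ℝ _ (take_mem_ps L j)
    have h4 : |((path W i).1 : ℝ) - ((((cut ms W).map Prod.snd).take j).sum.1 : ℝ)| +
      |((path W i).2 : ℝ) - ((((cut ms W).map Prod.snd).take j).sum.2 : ℝ)| ≤ s := by
      exact_mod_cast h1
    refine ⟨(L.take j).sum, h3, _, mem_bz hη0 (x := ((((path W i).1 : ℝ) / n,
      ((path W i).2 : ℝ) / n) - (L.take j).sum : ℝ × ℝ)) ?_ ?_, by abel⟩
    · rw [h2, Prod.fst_sub]
      simp only
      rw [← sub_div, abs_div, abs_of_pos hn0, hη]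
      apply div_le_div_of_nonneg_right _ hn0.le
      have := abs_nonneg (((path W i).2 : ℝ) - ((((cut ms W).map Prod.snd).take j).sum.2 : ℝ))
      linarith
    · rw [h2, Prod.snd_sub]
      simp only
      rw [← sub_div, abs_div, abs_of_pos hn0, hη]
      apply div_le_div_of_nonneg_right _ hn0.le
      have := abs_nonneg (((path W i).1 : ℝ) - ((((cut ms W).map Prod.snd).take j).sum.1 : ℝ))
      linarith
  have h5 := (measure_mono hsub).trans (hull_add hPc hPv hb hη0.le)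
  have h6 : volume P ≠ ∞ := hPc.measure_lt_top.ne
  rw [← hP]
  unfold Measure.real
  have h7 := ENNReal.toReal_mono (by
    rw [ENNReal.add_ne_top]
    exact ⟨h6, ENNReal.ofReal_ne_top⟩) h5
  rwa [ENNReal.toReal_add h6 ENNReal.ofReal_ne_top, ENNReal.toReal_ofReal (by positivity)] at h7

open Classical in
/-- the words whose hull has a large area -/
noncomputable def HS (n : ℕ) (x : ℝ) : Finset (List St) :=
  (fs Saw n).filter (fun W => x ≤ volume.real (convexHull ℝ (wpts n W)))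

theorem mem_HS {n : ℕ} {x : ℝ} {W : List St} : W ∈ HS n x ↔
    (Saw W ∧ W.length = n) ∧ x ≤ volume.real (convexHull ℝ (wpts n W)) := by
  unfold HS
  rw [Finset.mem_filter, mem_fs]

/-- **the upper bound** -/
theorem upper {u : ℝ} (_hu : 0 < u) {E : ℝ} (hE : 0 < E) {ε : ℝ} (hε : 0 < ε) :
    ∀ᶠ n : ℕ in atTop, ((HS n u).card : ℝ) ≤
      Real.exp (-(n * (√(2 * V E * u) - E)) + ε * n) * mu ^ n := by
  -- the choice of the number of pieces
  have hcont : Tendsto (fun η : ℝ => √(2 * V E * (u - (8 * η + 4 * η ^ 2)))) (𝓝[>] 0)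
      (𝓝 (√(2 * V E * (u - (8 * 0 + 4 * 0 ^ 2))))) :=
    (Continuous.tendsto (by fun_prop) _).mono_left nhdsWithin_le_nhds
  have e0 : u - (8 * 0 + 4 * 0 ^ 2) = u := by ring
  rw [e0] at hcont
  obtain ⟨η, hη1, hη0⟩ := ((hcont.eventually_const_lt
    (show √(2 * V E * u) - ε / 2 < √(2 * V E * u) by linarith)).and self_mem_nhdsWithin).exists
  have hη0' : (0 : ℝ) < η := hη0
  obtain ⟨N, hN⟩ := exists_nat_gt (2 / η)
  have hN0 : (0 : ℝ) < N := lt_trans (by positivity) hN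
  have hN0' : 0 < N := by exact_mod_cast hN0
  filter_upwards [count_open hN0' (show 0 < ε / 2 by linarith),
    tendsto_natCast_atTop_atTop.eventually_ge_atTop (2 / η)] with n hc hnη
  obtain ⟨hn2, hc⟩ := hc
  have hn0 : (0 : ℝ) < n := by exact_mod_cast (by omega : 0 < n)
  have hmu := mu_pos
  rcases (HS n u).eq_empty_or_nonempty with h0 | hne
  · rw [h0, Finset.card_empty, Nat.cast_zero]
    positivity
  obtain ⟨W, hW, ms, g1, g2, g3, g4⟩ := hc _ hne (fun W hW => (mem_HS.1 hW).1)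
  obtain ⟨⟨hW1, hW2⟩, hW3⟩ := mem_HS.1 hW
  refine g4.trans ?_
  apply mul_le_mul_of_nonneg_right _ (by positivity)
  apply Real.exp_le_exp.2
  have h1 := hull_cut (by omega : 0 < n) (Nat.succ_pos (n / N)) g1 g2 hW2 g3
  have hsη : ((n / N + 1 : ℕ) : ℝ) / n ≤ η := by
    rw [div_le_iff₀ hn0]
    push_cast
    have e1 : ((n / N : ℕ) : ℝ) ≤ (n : ℝ) / N := Nat.cast_div_le
    have e2 : (n : ℝ) / N ≤ η / 2 * n := by
      rw [div_le_iff₀ hN0]
      rw [div_lt_iff₀ hη0'] at hN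
      nlinarith
    have e3 : 1 ≤ η / 2 * n := by
      rw [div_le_iff₀ hη0'] at hnη
      linarith
    linarith
  obtain ⟨σ, hσ⟩ : ∃ σ : ℝ, σ = ((n / N + 1 : ℕ) : ℝ) / n := ⟨_, rfl⟩
  have hσ0 : 0 ≤ σ := by rw [hσ]; positivity
  have h1' : volume.real (convexHull ℝ (wpts n W)) ≤
      volume.real (convexHull ℝ (ps ((scl n (cut ms W)).map Prod.snd))) +
        (8 * σ + 4 * σ ^ 2) := by rw [hσ]; exact h1
  rw [← hσ] at hsη
  obtain ⟨hcv, hK, hint, hR, hS, -⟩ := AR.kep Rate PG.rt_rate E hE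
  rw [WF.KE_eq] at hcv hK hint hR hS
  have h2 := iso (K := Kc E) hK ⟨0, interior_subset hint⟩ hR hS ((scl n (cut ms W)).map Prod.snd)
  have h3 := sup_cost hE (by omega : 0 < n) (cut ms W) g3
  have hfst : ((scl n (cut ms W)).map Prod.fst).sum = 1 := by
    rw [scl_fst, cut_fst, ← g2, hW2, div_self hn0.ne']
  rw [hfst, mul_one] at h3
  have h4 : √(2 * V E * (u - (8 * η + 4 * η ^ 2))) ≤
      √(2 * volume.real (Kc E) *
        volume.real (convexHull ℝ (ps ((scl n (cut ms W)).map Prod.snd)))) := by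
    apply Real.sqrt_le_sqrt
    have h5 : 0 ≤ 2 * V E := by have := WF.V_nonneg E; positivity
    apply mul_le_mul_of_nonneg_left _ h5
    have : 8 * σ + 4 * σ ^ 2 ≤ 8 * η + 4 * η ^ 2 := by nlinarith
    linarith
  have h6 : √(2 * V E * u) - ε / 2 - E ≤ AR.cost Rate (scl n (cut ms W)) := by linarith
  have h7 := mul_le_mul_of_nonneg_left h6 hn0.le
  linarith

end Pool.Agent.H26.HA
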